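import Pool.Agent.MP_030fd4_nt.Odd

namespace Pool.Agent.Results.MP_030fd4_nt.OddDigit

open Pool.Agent.MP_030fd4_nt

theorem result (p : ℕ) [Fact p.Prime] (hp : 5 ≤ p) (a t x y : ℤ_[p])
    (hodd : Odd a.zmodRepr) (ht : a = (a.zmodRepr : ℤ_[p]) + (p : ℤ_[p]) * t)
    (hx : 2 * x = -a) (hy : 2 * y = a + 1) (M : ℕ) :
    ∃ R : ℤ_[p],
      trunc (a : ℚ_[p]) (p * M) +
          (p : ℚ_[p]) ^ 2 / 4 *
            ((-1) ^ ((p + 1) / 2) * (gammaP p x : ℚ_[p]) ^ 2 * (gammaP p y : ℚ_[p]) ^ 2) *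
            ∑ k ∈ Finset.range M, ((k : ℚ_[p]) - (t : ℚ_[p]) * ((t : ℚ_[p]) + 1)) *
              term (t : ℚ_[p]) k =
        (p : ℚ_[p]) ^ 3 * (M : ℚ_[p]) ^ 3 * term (t : ℚ_[p]) M * (R : ℚ_[p]) := by
  obtain ⟨hf, h2⟩ := exists_half hp
  obtain ⟨b, hb⟩ := hodd
  have hlt := PadicInt.zmodRepr_lt_p a
  rw [hb] at ht hlt
  obtain ⟨R, hR⟩ := main_odd hp h2 hlt t M
  refine ⟨R, ?_⟩
  have ht' : a = 2 * (b : ℤ_[p]) + 1 + p * t := by rw [ht]; push_cast; ring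
  have ex : x = -((b : ℤ_[p]) + hf + p * (hf * t)) := by
    linear_combination hf * hx - hf * ht' - (x + b) * h2
  have ey : y = (b : ℤ_[p]) + hf + p * (hf * t) + hf := by
    linear_combination hf * hy + hf * ht' - (y - b) * h2
  have ea : (a : ℚ_[p]) = ((2 * b + 1 : ℕ) : ℚ_[p]) + p * t := by
    rw [ht, PadicInt.coe_add, PadicInt.coe_mul, PadicInt.coe_natCast, PadicInt.coe_natCast]
  rw [ea, ex, ey]
  exact hR

end Pool.Agent.Results.MP_030fd4_nt.OddDigit
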